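import Mathlib
import Pool.Agent.H314.ZN.Gen

/-!
# Uniqueness in the `L_p`-Minkowski problem, `0 < p < 1`, for origin-symmetric convex bodies with
`n - 2` common reflections, and for zonoids
-/

set_option autoImplicit false

open MeasureTheory

namespace Pool.Agent.Results.MP_9dd972_gt.Reflections

/-- Euclidean space `ℝⁿ` -/
abbrev E (n : ℕ) : Type := EuclideanSpace ℝ (Fin n)

variable {n : ℕ}

/-- origin-symmetric convex body -/
structure SymBody (K : Set (E n)) : Prop where
  /-- convex -/
  convex : Convex ℝ K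
  /-- compact -/
  compact : IsCompact K
  /-- with interior points -/
  interior_nonempty : (interior K).Nonempty
  /-- symmetric with respect to the origin -/
  symm : ∀ x ∈ K, -x ∈ K

/-- support function -/
noncomputable def supp (K : Set (E n)) (u : E n) : ℝ := sSup ((fun y => inner ℝ y u) '' K)

/-- reflection in the coordinate hyperplane `x_j = 0` -/
noncomputable def refl (j : Fin n) (x : E n) : E n :=
  WithLp.toLp 2 (Function.update (WithLp.ofLp x) j (-(WithLp.ofLp x j)))

/-- `K` is invariant under the reflections in all coordinate hyperplanes except the first two -/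
def Inv (K : Set (E n)) : Prop := ∀ j : Fin n, 2 ≤ (j : ℕ) → ∀ x ∈ K, refl j x ∈ K

/-- for some linear automorphism `Φ` of `ℝⁿ`, both `Φ K` and `Φ C` are invariant under the
reflections in all coordinate hyperplanes except the first two -/
def CommonRefl (K C : Set (E n)) : Prop :=
  ∃ Φ : E n ≃ₗ[ℝ] E n, Inv (Φ '' K) ∧ Inv (Φ '' C)

/-- zonotope `∑ [-z_j, z_j]` -/
def IsZonotope (K : Set (E n)) : Prop :=
  ∃ (N : ℕ) (z : Fin N → E n), K = {x | ∃ t : Fin N → ℝ, (∀ j, |t j| ≤ 1) ∧ x = ∑ j, t j • z j}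

/-- zonoid: a limit of zonotopes in the Hausdorff metric -/
def IsZonoid (K : Set (E n)) : Prop :=
  IsCompact K ∧ ∀ ε : ℝ, 0 < ε → ∃ Z : Set (E n), IsZonotope Z ∧ Metric.hausdorffDist K Z < ε

/-- the outer unit normal of `K` at the boundary point `x / ‖x‖_K` (for almost every `x`): the
direction of the gradient at `x` of the norm `‖·‖_K = gauge K` -/
noncomputable def normal (K : Set (E n)) (x : E n) : E n :=
  ‖gradient (gauge K) x‖⁻¹ • gradient (gauge K) x

/-- the cone-volume measure `dV_K = (1/n) h_K dS_K` of `K`: the image of the Lebesgue measure on `K`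
under `x ↦ normal K x` -/
noncomputable def coneVol (K : Set (E n)) : Measure (E n) :=
  Measure.map (normal K) (volume.restrict K)

/-- the `L_p` surface area measure: `dS_{K,p} = h_K^(1-p) dS_K = n h_K^(-p) dV_K` -/
noncomputable def surf (p : ℝ) (K : Set (E n)) : Measure (E n) :=
  (n : ENNReal) • (coneVol K).withDensity fun u => ENNReal.ofReal (supp K u ^ (-p))

theorem SymBody.sb {K : Set (E n)} (h : SymBody K) : H354ZN.SB K := by
  refine ⟨h.convex, h.compact, ?_, h.symm⟩
  obtain ⟨y, hy⟩ := h.interior_nonempty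
  have h1 : -y ∈ interior K := by
    have h2 : (Neg.neg ⁻¹' (interior K) : Set (E n)) ⊆ K := fun x hx => by
      have := h.symm _ (interior_subset hx)
      rwa [neg_neg] at this
    have h3 : IsOpen (Neg.neg ⁻¹' (interior K) : Set (E n)) :=
      isOpen_interior.preimage continuous_neg
    exact interior_maximal h2 h3 (by simpa using hy)
  have h4 := h.convex.interior hy h1 (by norm_num : (0 : ℝ) ≤ 1 / 2)
    (by norm_num : (0 : ℝ) ≤ 1 / 2) (by norm_num)
  simpa using h4

theorem CommonRefl.refl2 {K L : Set (E n)} (h : CommonRefl K L) : H354ZN.Refl2 K L := by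
  obtain ⟨Φ, h1, h2⟩ := h
  exact ⟨Φ.toContinuousLinearEquiv, h1, h2⟩

/-- **Theorem.** Let `0 < p < 1` and let `K`, `C` be origin-symmetric convex bodies in `ℝⁿ` which
have `n - 2` common reflections (`n ≥ 2`), or which are both zonoids. If `S_{K,p} = S_{C,p}`, then
`K = C`. -/
theorem result (n : ℕ) (hn : 1 ≤ n) (p : ℝ) (hp : 0 < p) (hp1 : p < 1) (K C : Set (E n))
    (hK : SymBody K) (hC : SymBody C)
    (h : (2 ≤ n ∧ CommonRefl K C) ∨ (IsZonoid K ∧ IsZonoid C))
    (hS : surf p K = surf p C) : K = C := by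
  rcases h with ⟨h2, h⟩ | ⟨h1, h2⟩
  · have h' : CommonRefl C K := by
      obtain ⟨Φ, a, b⟩ := h
      exact ⟨Φ, b, a⟩
    exact H354ZN.un_of_LM hn hp hp1 hK.sb hC.sb (H354ZN.refl2_LM h2 hK.sb hC.sb h.refl2)
      (H354ZN.refl2_LM h2 hC.sb hK.sb h'.refl2) hS
  · exact H354ZN.un_of_LM hn hp hp1 hK.sb hC.sb (H354ZN.zonoid_LM hn hK.sb hC.sb h1)
      (H354ZN.zonoid_LM hn hC.sb hK.sb h2) hS

end Pool.Agent.Results.MP_9dd972_gt.Reflections
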